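import Pool.Agent.P.MP_b01859_ag.U.Deg

/-!
The two filtrations attached to a nilpotent symmetry.
-/

namespace Pool.Agent.P.MP_b01859_ag

open MvPolynomial Finsupp VB

variable {σ ι : Type}

lemma prim_eval [Finite σ] {q : ι → Pol σ} (hp : Prim q) {d : ι → ℤ} (hd : ∀ i, Hom (q i) (d i))
    {A : Set σ} (hA : ∀ i, kl A (q i) = q i) {s t : σ} (hst : s ≠ t) (h2 : ∀ i ∈ A, i = s ∨ i = t)
    {x : σ → ℂ} (hx : ∀ i, i ∉ A → x i = 0) (hs : x s ≠ 0) : ∃ i, eval x (q i) ≠ 0 := by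
  classical
  by_contra hcon
  push Not at hcon
  let ψ : Pol σ →ₐ[ℂ] Pol σ := aeval fun i => if i = t then C (x t / x s) * X s else X i
  have h1 : ∀ p, (X t - C (x t / x s) * X s : Pol σ) ∣ p - ψ p := by
    intro p
    induction p using MvPolynomial.induction_on with
    | C a => simp
    | add p q hp hq => rw [map_add, add_sub_add_comm]; exact dvd_add hp hq
    | mul_X p i hp =>
      rw [map_mul, show p * X i - ψ p * ψ (X i) = (p - ψ p) * X i + ψ p * (X i - ψ (X i)) by ring]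
      refine dvd_add (hp.mul_right _) (Dvd.dvd.mul_left ?_ _)
      by_cases hi : i = t <;> simp [ψ, hi]
  have h3 : ∀ y p, eval y (ψ p) = eval (fun i => if i = t then x t / x s * y s else y i) p := by
    intro y p
    induction p using MvPolynomial.induction_on with
    | C a => simp
    | add p q hp hq => simp only [map_add, hp, hq]
    | mul_X p i hp =>
      rw [map_mul, map_mul, map_mul, hp]
      by_cases hi : i = t <;> simp [ψ, hi]
  have h4 : ∀ i, ψ (q i) = 0 := fun i => MvPolynomial.funext fun y => by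
    have e := (hd i).eval_smul (y s / x s) x
    rw [hcon, mul_zero] at e
    rw [h3, ← hA, eval_kl', map_zero]
    refine Eq.trans (congrArg (fun z => eval z (q i)) (funext fun j => ?_)) e
    by_cases hj : j ∈ A
    · rcases h2 j hj with rfl | rfl
      · simp [hj, hst, hs]
      · simp only [hj, if_true, Pi.smul_apply, smul_eq_mul]
        ring
    · simp [hj, hx j hj]
  have h5 := (hp _ fun i => by simpa [h4] using h1 (q i)).map (eval (0 : σ → ℂ))
  simp at h5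

lemma hom_prod {w w' : σ → ℤ} {p : Pol σ} {a b : ℤ} (h : IsWeightedHomogeneous w p a)
    (h' : IsWeightedHomogeneous w' p b) : IsWeightedHomogeneous (fun i => (w i, w' i)) p (a, b) :=
  fun d hd => Prod.ext ((weight_comp (AddMonoidHom.fst ℤ ℤ) (fun i => (w i, w' i)) d).symm.trans
    (h hd)) ((weight_comp (AddMonoidHom.snd ℤ ℤ) (fun i => (w i, w' i)) d).symm.trans (h' hd))

lemma ge_one {w : σ → ℤ} (hw : ∀ i, 0 ≤ w i) {p : Pol σ} (h : kl {i | w i = 0} p = 0) :
    Ge w 1 p := (ge_of_nonneg hw p).succ ((cp_zero hw p).trans h)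

/-- The initial form in weight `j` is not zero. -/
def Ex (w : σ → ℤ) (j : ℤ) (p : Pol σ) : Prop := Ge w j p ∧ cp w j p ≠ 0

lemma Ex.add {w : σ → ℤ} {j : ℤ} {p q : Pol σ} (h : Ex w j p) (h' : Ge w (j + 1) q) :
    Ex w j (q + p) :=
  ⟨(h'.mono (by omega)).add h.1, by rw [map_add, h'.cp_lt (by omega), zero_add]; exact h.2⟩

lemma Ex.neg {w : σ → ℤ} {j : ℤ} {p : Pol σ} (h : Ex w j p) : Ex w j (-p) :=
  ⟨h.1.neg, by rw [map_neg, neg_ne_zero]; exact h.2⟩

lemma Ex.mul {w : σ → ℤ} {j k : ℤ} {p q : Pol σ} (h : Ex w j p) (h' : Ex w k q) :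
    Ex w (j + k) (p * q) :=
  ⟨h.1.mul h'.1, by rw [h.1.cp_mul h'.1 rfl]; exact mul_ne_zero h.2 h'.2⟩

lemma Ex.of_mul {w : σ → ℤ} {k : ℤ} {p q : Pol σ} (h : Ex w 0 p) (h' : Ex w k (p * q)) :
    Ex w k q := by
  have h1 : Ge w k q := h.1.of_mul h.2 (by simpa using h'.1)
  refine ⟨h1, fun h2 => h'.2 ?_⟩
  rw [h.1.cp_mul h1 (zero_add k).symm, h2, mul_zero]

variable [Fintype σ] [Nontrivial σ] [Fintype ι] {T : VB σ ι} {w : σ → ℤ}

lemma reg_sing {δ : Dr σ} {a : Matrix ι ι ℂ} (hS : T.Sym δ a) (hL : LN (D hS))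
    (hδ : ∀ i, IsWeightedHomogeneous w (δ (X i)) (w i + 1)) {m : T.N}
    (h0 : Ex w 0 (T.B m (D hS m))) : Ge w 2 (T.B (D hS m) (D hS (D hS m))) := by
  by_contra hcon
  obtain ⟨e, he⟩ : ∃ e, Ex w e (T.B (D hS m) (D hS (D hS m))) :=
    exists_bot w fun h => hcon (h ▸ ge_zero _ _)
  have he2 : e < 2 := not_le.1 fun h => hcon (he.1.mono h)
  have hb : Ge w 1 (T.B m (D hS (D hS m))) := by
    have := h0.1.dr hδ
    rwa [D_B hS, B_self, zero_add, zero_add] at this
  have hU : ∀ z, T.B (D hS z) m = δ (T.B z m) + -T.B z (D hS m) := fun z => by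
    rw [D_B hS]; ring
  have hV : ∀ z, T.B m (D hS m) * T.B (D hS z) (D hS m) =
      (T.B m (D hS m) * δ (T.B z (D hS m)) - T.B m (D hS (D hS m)) * T.B z (D hS m)) +
        T.B (D hS m) (D hS (D hS m)) * T.B z m := fun z => by
    rw [D_B hS]
    linear_combination -T.rel4 z m (D hS m) (D hS (D hS m))
  have hV' : ∀ {z j}, Ge w j (T.B z (D hS m)) → Ge w (j + 1)
      (T.B m (D hS m) * δ (T.B z (D hS m)) - T.B m (D hS (D hS m)) * T.B z (D hS m)) :=
    fun h => ((h0.1.mul (h.dr hδ)).mono (by omega)).sub ((hb.mul h).mono (by omega))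
  have key : ∀ k : ℕ, Ex w (k * e) (T.B ((D hS ^ (2 * k)) m) (D hS m)) ∧
      Ge w (k * e - e + 1) (T.B ((D hS ^ (2 * k)) m) m) := by
    intro k
    induction k with
    | zero => simpa using ⟨h0, ge_zero _ _⟩
    | succ k ih =>
      rw [show 2 * (k + 1) = 2 * k + 1 + 1 by ring, pow_succ', pow_succ', Module.End.mul_apply,
        Module.End.mul_apply, show ((k + 1 : ℕ) : ℤ) * e = k * e + e by push_cast; ring]
      generalize (D hS ^ (2 * k)) m = z at ih
      generalize (k : ℤ) * e = j at ih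
      have a1 : Ex w j (T.B (D hS z) m) := hU z ▸ ih.1.neg.add ((ih.2.dr hδ).mono (by omega))
      have a2 : Ge w (j + 1) (T.B (D hS z) (D hS m)) := h0.1.of_mul h0.2 (by
        rw [hV, zero_add]
        exact (hV' ih.1.1).add ((he.1.mul ih.2).mono (by omega)))
      refine ⟨h0.of_mul ?_, ?_⟩
      · rw [hV, add_comm j]
        exact (he.mul a1).add ((hV' a2).mono (by omega))
      · rw [hU]
        exact ((a1.1.dr hδ).add a2.neg).mono (by omega)
  obtain ⟨k, hk⟩ := hL m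
  have := (key k).1.2
  rw [pow_apply_of_le hk (by omega)] at this
  simp at this

variable [DecidableEq σ] [DecidableEq ι] {γ : ι → ℤ} {g : ℤ} {f : Matrix σ σ ℂ} {a : Matrix ι ι ℂ}

theorem fil_split (hG : Gr (fun _ => 1) γ g T.ω) (h : NS T γ f a) (hw : ∀ i, 0 ≤ w i)
    (hf : ∀ i j, f i j ≠ 0 → w j = w i + 1)
    (hgen : ∀ I : Ideal (Pol σ), (∀ p ∈ I, der f p ∈ I) → (∀ s, w s = 0 → X s ∈ I) → ∀ s, X s ∈ I)
    (h3 : 2 < Fintype.card σ) {s t : σ} (hst : s ≠ t) (hs : w s = 0)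
    (h2 : ∀ i, w i = 0 → i = s ∨ i = t) (H0 : Lim f w 0) (H1 : Lim f w 1) : Sp T.ω := by
  have hδ := der_X_hom hf
  set ρ := kl {i | w i = 0} with hρ
  have hρδ : ∀ p, ρ (der f p) = 0 := fun p => by
    rw [hρ, ← cp_zero hw]
    exact ((ge_of_nonneg hw p).dr hδ).cp_lt (by omega)
  obtain ⟨i₀, j₀, hij⟩ := T.LF_kl {i | w i = 0} ⊥ Ideal.isPrime_bot (s := s) hs (by simp)
  rw [Ideal.mem_bot, ← hρ] at hij
  by_cases H : ∀ (m : T.N) (α : ℤ), HomN (fun _ => 1) γ m α → ρ (T.B m (D h.hS m)) = 0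
  · have h0 : ∀ i j, ρ (T.B (T.row i) (D h.hS (T.row j))) = 0 := by
      intro i j
      have hx : ∀ n : ℕ, Hom ((X s : Pol σ) ^ n) n := fun n => by
        simpa using (isWeightedHomogeneous_X ℂ (fun _ : σ => (1 : ℤ)) s).pow n
      have e1 := H _ (max (γ i) (γ j) - g)
        ((((row_hom hG i).smul (hx (γ j - γ i).toNat)).congr (by omega)).add
        (((row_hom hG j).smul (hx (γ i - γ j).toNat)).congr (by omega)))
      have e2 := hρδ (T.B (T.row i) (T.row j))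
      rw [D_B h.hS, T.B_swap (T.row j), map_add, map_neg] at e2
      simp only [map_add, D_smul, map_smul, LinearMap.add_apply, LinearMap.smul_apply, smul_eq_mul,
        map_mul, hρδ, H _ _ (row_hom hG _), map_pow, zero_mul, mul_zero, zero_add, add_zero] at e1
      rw [hρ, kl_X_mem (A := {i | w i = 0}) hs, ← hρ] at e1
      apply mul_left_cancel₀ (mul_ne_zero (two_ne_zero (α := Pol σ)) (mul_ne_zero
        (pow_ne_zero (γ j - γ i).toNat (X_ne_zero s)) (pow_ne_zero (γ i - γ j).toNat (X_ne_zero s))))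
      linear_combination e1 + X s ^ (γ j - γ i).toNat * X s ^ (γ i - γ j).toNat * e2
    have hF2 : ∀ (j k : ℤ) (φ ψ : T.N), (∀ t, Ge w j (φ.1 t)) → (∀ t, Ge w k (ψ.1 t)) →
        Ge w (j + k - 0) (T.B φ ψ) := fun j k φ ψ hφ hψ =>
      (ge_of_nonneg hw _).of_mul ((cp_zero hw _).trans_ne hij) (by
        rw [B_spec]
        exact (((hφ _).mul (hψ _)).sub ((hφ _).mul (hψ _))).mono (by omega))
    refine degen hG h hw hf hgen h3 (fun j φ => ∀ t, Ge w j (φ.1 t)) (fun j φ hφ t => ?_) hF2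
      T.row _ 0 (row_hom hG) (fun c t => ge_of_nonneg hw _) id (fun _ => rfl) (fun x _ hx => ?_) H0
    · have e1 := D_B h.hS φ (T.row t)
      rw [B_row, B_row] at e1
      rw [eq_sub_of_add_eq e1.symm]
      refine ((hφ t).dr hδ).sub ((hF2 _ 1 _ _ hφ fun u => ge_one hw ?_).mono (by omega))
      rw [← B_row, T.B_swap, map_neg, ← hρ, h0, neg_zero]
    · obtain ⟨i, j, h1⟩ := T.LF_eval hx
      exact ⟨i, j, rfl, by rwa [B_row_row]⟩
  push Not at H
  obtain ⟨m, α, hm, h0⟩ := H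
  have h0' : Ex w 0 (T.B m (D h.hS m)) := ⟨ge_of_nonneg hw _, (cp_zero hw _).trans_ne h0⟩
  have hF2 : ∀ (j k : ℤ) (φ ψ : T.N), Ge w (j - 1) (T.B φ m) ∧ Ge w j (T.B φ (D h.hS m)) →
      Ge w (k - 1) (T.B ψ m) ∧ Ge w k (T.B ψ (D h.hS m)) → Ge w (j + k - 1) (T.B φ ψ) :=
    fun j k φ ψ hφ hψ => h0'.1.of_mul h0'.2 (by
      rw [show T.B m (D h.hS m) * T.B φ ψ = T.B φ m * T.B ψ (D h.hS m) -
        T.B φ (D h.hS m) * T.B ψ m by linear_combination T.rel4 φ ψ m (D h.hS m)]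
      exact ((hφ.1.mul hψ.2).mono (by omega)).sub ((hφ.2.mul hψ.1).mono (by omega)))
  obtain ⟨δ, q, c, hδ0, hq, hp, hc, hqh⟩ := exists_prim_hom (Γ := ℤ × ℤ)
    (fun c c' h => Prod.ext (h (AddMonoidHom.fst _ _)) (h (AddMonoidHom.snd _ _)))
    (fun i => ρ ((D h.hS m).1 i)) (fun i => (γ i + α, 0))
    (fun i => hom_prod (kl_hom _ (h.hom hm i)) (cp_zero hw _ ▸ cp_hom w 0 _)) (by
      by_contra hcon
      push Not at hcon
      have e1 := congrArg ρ (T.B_spec m (D h.hS m) i₀ j₀)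
      simp only [map_mul, map_sub, hcon, mul_zero, sub_zero] at e1
      exact mul_ne_zero hij h0 e1)
  have hq1 : ∀ i, Hom (q i) (γ i + α - c.1) := fun i => hom_map (AddMonoidHom.fst ℤ ℤ) (hqh i)
  have hq2 : ∀ i, ρ (q i) = q i := fun i => by
    have a1 : IsWeightedHomogeneous w (q i) (0 - c.2) := hom_map (AddMonoidHom.snd ℤ ℤ) (hqh i)
    have a2 : IsWeightedHomogeneous w δ c.2 := hom_map (AddMonoidHom.snd ℤ ℤ) hc
    by_cases a3 : 0 - c.2 < 0
    · rw [hom_neg (lam := AddMonoidHom.id ℤ) hw a1 a3, map_zero]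
    · have a4 : ¬ c.2 < 0 := fun a4 => hδ0 (hom_neg (lam := AddMonoidHom.id ℤ) hw a2 a4)
      exact hom_zero (lam := AddMonoidHom.id ℤ) hw a1 (show 0 - c.2 = 0 by omega)
  refine degen hG h hw hf hgen h3
    (fun j φ => Ge w (j - 1) (T.B φ m) ∧ Ge w j (T.B φ (D h.hS m))) (fun j φ hφ => ⟨?_, ?_⟩) hF2
    (Sum.elim T.row fun p : ι × ι => q p.2 • T.row p.1 - q p.1 • T.row p.2)
    (Sum.elim (fun i => γ i - g) fun p => γ p.1 + γ p.2 + α - c.1 - g) (Sum.elim 0 1)
    ?_ ?_ Sum.inl (fun _ => rfl) (fun x hx hx0 => ?_) H1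
  · rw [eq_sub_of_add_eq (D_B h.hS φ m).symm]
    exact ((hφ.1.dr hδ).mono (by omega)).sub (hφ.2.mono (by omega))
  · rw [eq_sub_of_add_eq (D_B h.hS φ _).symm]
    refine (hφ.2.dr hδ).sub ((hF2 _ 2 _ _ hφ ⟨?_, ?_⟩).mono (by omega))
    · have := h0'.1.dr hδ
      rw [D_B h.hS, B_self, zero_add, zero_add] at this
      rw [T.B_swap]
      exact this.neg
    · rw [T.B_swap]
      exact (reg_sing h.hS (h.ln hf) hδ h0').neg
  · rintro (i | p)
    · exact row_hom hG i
    · exact (((row_hom hG p.1).smul (hq1 p.2)).congr (by simp only [Sum.elim_inr]; ring)).sub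
        (((row_hom hG p.2).smul (hq1 p.1)).congr (by simp only [Sum.elim_inr]; ring))
  · rintro (i | p)
    · exact ⟨(ge_of_nonneg hw _).mono (by simp), ge_of_nonneg hw _⟩
    · refine ⟨ge_of_nonneg hw _, ge_one hw ?_⟩
      simp only [Sum.elim_inr, map_sub, map_smul, LinearMap.sub_apply, LinearMap.smul_apply,
        smul_eq_mul, T.B_swap (D h.hS m), B_row, map_mul, map_neg, ← hρ, hq, hq2]
      ring
  · obtain ⟨l, hl⟩ : ∃ l, eval x (q l) ≠ 0 := by
      by_cases h4 : x s = 0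
      · refine prim_eval hp hq1 hq2 hst.symm (fun i hi => (h2 i hi).symm) hx fun h5 => hx0 ?_
        funext i
        by_cases h6 : w i = 0
        · rcases h2 i h6 with rfl | rfl
          exacts [h4, h5]
        · exact hx i h6
      · exact prim_eval hp hq1 hq2 hst h2 hx h4
    by_contra hcon
    push Not at hcon
    have e1 : ∀ i u, eval x (q l) * eval x (T.ω i u) = eval x (q i) * eval x (T.ω l u) :=
      fun i u => by
        simpa [B_row, sub_eq_zero] using hcon (Sum.inr (i, l)) (Sum.inl u) (by simp)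
    obtain ⟨i, u, h4⟩ := T.LF_eval hx0
    have e2 := e1 u l
    rw [T.diag, map_zero, mul_zero, T.skew, map_neg, mul_neg, neg_eq_zero] at e2
    have e3 := e1 i u
    rw [(mul_eq_zero.1 e2).resolve_left hl, mul_zero] at e3
    exact mul_ne_zero hl h4 e3

end Pool.Agent.P.MP_b01859_ag
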