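import Pool.Agent.P.MP_b01859_ag.U.Fil

/-!
Degeneration of a bundle with a nilpotent symmetry to a bundle with a torus action.
-/

namespace Pool.Agent.P.MP_b01859_ag

open MvPolynomial Finsupp VB

variable {σ ι : Type} [Fintype σ] [DecidableEq σ] [Nontrivial σ] [Fintype ι] [DecidableEq ι]
  {T : VB σ ι} {γ : ι → ℤ} {g : ℤ} {f : Matrix σ σ ℂ} {a : Matrix ι ι ℂ} {w : σ → ℤ}

omit [Nontrivial σ] in
lemma NS.ln (h : NS T γ f a) (hf : ∀ i j, f i j ≠ 0 → w j = w i + 1) : LN (D h.hS) :=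
  D_LN h.hS (LN_der (nil_of_raise one_pos hf)) h.ha

omit [Nontrivial σ] [DecidableEq σ] in
lemma NS.hom (h : NS T γ f a) {φ : T.N} {α : ℤ} (hφ : HomN (fun _ => 1) γ φ α) :
    HomN (fun _ => 1) γ (D h.hS φ) α := by
  simpa using D_hom h.hS (μ := 0) (der_X_hom fun _ _ _ => by simp) (by simpa using h.hγ) hφ

/-- The statement that all bundles with a compatible torus action split. -/
def Lim (f : Matrix σ σ ℂ) (w : σ → ℤ) (e : ℤ) : Prop :=
  ∀ (κ : Type) [Fintype κ] [DecidableEq κ] (T₀ : VB σ κ) (γ' β' : κ → ℤ) (g' : ℤ)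
    (b : Matrix κ κ ℂ), Gr (fun _ => 1) γ' g' T₀.ω → Gr w β' e T₀.ω →
    (∀ i j, b i j ≠ 0 → β' j = β' i + 1) → (∀ i j, b i j ≠ 0 → γ' j = γ' i) →
    T₀.Sym (der f) b → Sp T₀.ω

theorem degen (hG : Gr (fun _ => 1) γ g T.ω) (h : NS T γ f a) (hw : ∀ i, 0 ≤ w i)
    (hf : ∀ i j, f i j ≠ 0 → w j = w i + 1)
    (hgen : ∀ I : Ideal (Pol σ), (∀ p ∈ I, der f p ∈ I) → (∀ s, w s = 0 → X s ∈ I) → ∀ s, X s ∈ I)
    (h3 : 2 < Fintype.card σ) {e : ℤ} (Fil : ℤ → T.N → Prop)
    (hF1 : ∀ j φ, Fil j φ → Fil (j + 1) (D h.hS φ))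
    (hF2 : ∀ j k φ ψ, Fil j φ → Fil k ψ → Ge w (j + k - e) (T.B φ ψ))
    {κ : Type} [Fintype κ] (n : κ → T.N) (α β : κ → ℤ) (hn : ∀ c, HomN (fun _ => 1) γ (n c) (α c))
    (hn' : ∀ c, Fil (β c) (n c)) (r : ι → κ) (hr : ∀ i, n (r i) = T.row i)
    (hLF : ∀ x : σ → ℂ, (∀ i, w i ≠ 0 → x i = 0) → x ≠ 0 →
      ∃ c c', β c + β c' = e ∧ eval x (T.B (n c) (n c')) ≠ 0)
    (H : Lim f w e) : Sp T.ω := by
  classical
  obtain ⟨K, hK⟩ : ∃ K, ∀ c, (D h.hS ^ (K + 1)) (n c) = 0 := by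
    choose k hk using fun c => h.ln hf (n c)
    exact ⟨Finset.univ.sup k, fun c => pow_apply_of_le (hk c)
      ((Finset.le_sup (Finset.mem_univ c)).trans (Nat.le_succ _))⟩
  let m : κ × Fin (K + 1) → T.N := fun c => (D h.hS ^ c.2.1) (n c.1)
  let β' : κ × Fin (K + 1) → ℤ := fun c => β c.1 + c.2.1
  let b : Matrix (κ × Fin (K + 1)) (κ × Fin (K + 1)) ℂ :=
    fun c c' => if c'.1 = c.1 ∧ c'.2.1 = c.2.1 + 1 then 1 else 0
  have hb : ∀ c c', b c c' ≠ 0 → c'.1 = c.1 ∧ c'.2.1 = c.2.1 + 1 := fun c c' h1 =>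
    by_contra fun h2 => h1 (if_neg h2)
  have hβ : ∀ c c', b c c' ≠ 0 → β' c' = β' c + 1 := fun c c' h1 => by
    simp only [β', (hb c c' h1).1, (hb c c' h1).2]; push_cast; ring
  have hD : ∀ c, D h.hS (m c) = ∑ c', b c c' • m c' := by
    intro c
    have e1 : D h.hS (m c) = (D h.hS ^ (c.2.1 + 1)) (n c.1) := by rw [pow_succ']; rfl
    rw [e1]
    by_cases h1 : c.2.1 + 1 < K + 1
    · rw [Finset.sum_eq_single (c.1, ⟨c.2.1 + 1, h1⟩) (fun c' _ hc => ?_) (by simp)]
      · simp [b, m]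
      · by_cases h2 : b c c' = 0
        · rw [h2, zero_smul]
        · exact (hc (Prod.ext (hb c c' h2).1 (Fin.ext (hb c c' h2).2))).elim
    · rw [pow_apply_of_le (hK c.1) (not_lt.1 h1), Finset.sum_eq_zero fun c' _ => ?_]
      by_cases h2 : b c c' = 0
      · rw [h2, zero_smul]
      · exact absurd ((hb c c' h2).2 ▸ c'.2.2) h1
  have hm : ∀ c, HomN (fun _ => 1) γ (m c) (α c.1) ∧ Fil (β' c) (m c) := by
    rintro ⟨c, l, hl⟩
    simp only [m, β']
    clear hl
    induction l with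
    | zero => simpa using ⟨hn c, hn' c⟩
    | succ l ih =>
      rw [pow_succ', Module.End.mul_apply, Nat.cast_succ, ← add_assoc]
      exact ⟨h.hom ih.1, hF1 _ _ ih.2⟩
  have hge : ∀ c c', Ge w (β' c + β' c' - e) (T.B (m c) (m c')) := fun c c' =>
    hF2 _ _ _ _ (hm c).2 (hm c').2
  have hdeg : ∀ c c', Hom (T.B (m c) (m c')) (α c.1 + α c'.1 - -g) := fun c c' =>
    hom_congr (B_hom hG (hm c).1 (hm c').1) (by ring)
  have hrow : ∀ i, m (r i, 0) = T.row i := fun i => hr i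
  let ω₀ : κ × Fin (K + 1) → κ × Fin (K + 1) → Pol σ :=
    fun c c' => cp w (β' c + β' c' - e) (T.B (m c) (m c'))
  have hsym : ∀ c c', der f (ω₀ c c') = ∑ k, b c k • ω₀ k c' + ∑ k, b c' k • ω₀ c k := by
    intro c c'
    rw [← comp_dr (der_X_hom hf), D_B h.hS, hD, hD]
    simp only [map_sum, LinearMap.sum_apply, B_csmul_left, B_csmul_right, map_add, map_smul]
    congr 1 <;> refine Finset.sum_congr rfl fun k _ => ?_
    · by_cases h1 : b c k = 0
      · rw [h1, zero_smul, zero_smul]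
      · simp only [ω₀, hβ c k h1]
        congr 3; ring
    · by_cases h1 : b c' k = 0
      · rw [h1, zero_smul, zero_smul]
      · simp only [ω₀, hβ c' k h1]
        congr 3; ring
  let I : Ideal (Pol σ) := Ideal.span (Set.range fun p : _ × _ => ω₀ p.1 p.2)
  have hI : ∀ c c', ω₀ c c' ∈ I := fun c c' => Ideal.subset_span ⟨(c, c'), rfl⟩
  have hrad : ∀ s, X s ∈ I.radical := by
    refine hgen _ (fun p => radical_dr _ fun p hp => ?_) fun s hs => ?_
    · induction hp using Submodule.span_induction with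
      | mem x hx =>
        obtain ⟨p, rfl⟩ := hx
        rw [hsym]
        exact I.add_mem (I.sum_mem fun k _ => I.smul_of_tower_mem _ (hI _ _))
          (I.sum_mem fun k _ => I.smul_of_tower_mem _ (hI _ _))
      | zero => simp
      | add x y _ _ hx hy => rw [map_add]; exact I.add_mem hx hy
      | smul c x hx' hx =>
        rw [smul_eq_mul, dr_mul]
        exact I.add_mem (I.mul_mem_left _ hx') (I.mul_mem_left _ hx)
    · rw [← vanishingIdeal_zeroLocus_eq_radical (K := ℂ), mem_vanishingIdeal_iff]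
      intro x hx
      rw [aeval_X]
      by_contra hxs
      obtain ⟨c, c', h1, h2⟩ := hLF (fun i => if w i = 0 then x i else 0)
        (fun i hi => if_neg hi) fun h0 => hxs (by simpa [hs] using congrFun h0 s)
      have h4 := hx _ (hI (c, 0) (c', 0))
      simp only [ω₀, β', m, Fin.val_zero, Nat.cast_zero, add_zero, h1, sub_self, pow_zero,
        Module.End.one_apply, cp_zero hw, aeval_eq_eval, eval_kl'] at h4
      refine h2 (Eq.trans ?_ h4)
      congr 2
      funext i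
      by_cases hi : w i = 0 <;> simp [hi]
  let T' : VB σ (κ × Fin (K + 1)) :=
    { ω := fun c c' => T.B (m c) (m c')
      skew := fun _ _ => T.B_swap _ _
      pl := fun _ _ _ _ => T.rel4 _ _ _ _
      LF := fun p hp s hs => by
        obtain ⟨i, j, hij⟩ := T.LF p hp s hs
        exact ⟨(r i, 0), (r j, 0), by rwa [hrow, hrow, B_row_row]⟩ }
  let T₀ : VB σ (κ × Fin (K + 1)) :=
    { ω := ω₀
      skew := fun c c' => by
        simp only [ω₀]
        rw [T.B_swap, map_neg, add_comm]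
      pl := fun i j k l => by
        have e1 := congrArg (cp w (β' i + β' j + β' k + β' l - e - e))
          (T.rel4 (m i) (m j) (m k) (m l))
        rwa [map_add, map_sub, (hge i j).cp_mul (hge k l) (by ring),
          (hge i k).cp_mul (hge j l) (by ring), (hge i l).cp_mul (hge j k) (by ring),
          map_zero] at e1
      LF := fun p hp s hs => by
        by_contra hcon
        push Not at hcon
        refine hs (hp.radical_le_iff.mpr ?_ (hrad s))
        rw [Ideal.span_le]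
        rintro _ ⟨q, rfl⟩
        exact hcon _ _ }
  have hG₀ : Gr (fun _ => 1) (fun c => α c.1) (-g) T₀.ω := fun c c' d hd => hdeg c c' (by
    have := coeff_weightedHomogeneousComponent (w := w) (β' c + β' c' - e) (T.B (m c) (m c')) d
    intro h0
    exact hd (this.trans (by rw [h0, ite_self])))
  have hS₀ := H _ T₀ _ β' _ b hG₀ (fun c c' => cp_hom _ _ _) hβ
    (fun c c' h1 => by rw [(hb c c' h1).1]) hsym
  obtain ⟨W, hW⟩ : ∃ W, ∀ i, w i - W < 0 :=
    ⟨(Finset.univ.sup fun i => (w i).toNat : ℕ) + 1, fun i => by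
      have := Finset.le_sup (f := fun i => (w i).toNat) (Finset.mem_univ i)
      omega⟩
  have e2 : ∀ c c' : κ × Fin (K + 1), β' c - W * α c.1 + (β' c' - W * α c'.1) - (e + W * g) =
      β' c + β' c' - e - W * (α c.1 + α c'.1 - -g) := fun c c' => by ring
  obtain ⟨n₁, n₂, h5⟩ := lift_sp (T := T') (T₀ := T₀) hW (β := fun c => β' c - W * α c.1)
    (e := e + W * g) (fun c c' => e2 c c' ▸ (hge c c').shift (hdeg c c') W)
    (fun c c' => by rw [e2]; exact (cp_shift (hdeg c c') _ _ _).symm) hG₀ h3 hS₀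
  exact ⟨fun i => n₁ (r i, 0), fun i => n₂ (r i, 0), fun i j => by
    rw [← h5, ← B_row_row, ← hrow, ← hrow]⟩

end Pool.Agent.P.MP_b01859_ag
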