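import Pool.Agent.P.MP_b01859_ag.Fr2

/-!
Weight filtrations, initial forms and lifting of a splitting from the initial bundle.
-/

namespace Pool.Agent.P.MP_b01859_ag

open MvPolynomial Finsupp VB

variable {σ ι : Type}

/-- All monomials have weight at least `j`. -/
def Ge (w : σ → ℤ) (j : ℤ) (f : Pol σ) : Prop := ∀ d, coeff d f ≠ 0 → j ≤ weight w d

/-- The component of weight `j`. -/
noncomputable abbrev cp (w : σ → ℤ) (j : ℤ) : Pol σ →ₗ[ℂ] Pol σ := weightedHomogeneousComponent w j

section ge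

variable {w : σ → ℤ} {j k : ℤ} {f g : Pol σ}

lemma cp_hom (w : σ → ℤ) (j : ℤ) (f : Pol σ) : IsWeightedHomogeneous w (cp w j f) j :=
  weightedHomogeneousComponent_isWeightedHomogeneous _ _

lemma ge_zero (w : σ → ℤ) (j : ℤ) : Ge w j 0 := fun d hd => absurd (coeff_zero d) hd

lemma Ge.mono (h : Ge w j f) (e : k ≤ j) : Ge w k f := fun d hd => e.trans (h d hd)

lemma Ge.add (h : Ge w j f) (h' : Ge w j g) : Ge w j (f + g) := fun d hd => by
  by_cases h1 : coeff d f = 0
  · exact h' d (by simpa [h1] using hd)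
  · exact h d h1

lemma Ge.neg (h : Ge w j f) : Ge w j (-f) := fun d hd => h d (by simpa using hd)

lemma Ge.sub (h : Ge w j f) (h' : Ge w j g) : Ge w j (f - g) := by
  rw [sub_eq_add_neg]; exact h.add h'.neg

lemma ge_of_hom (h : IsWeightedHomogeneous w f j) : Ge w j f := fun _ hd => (h hd).ge

lemma Ge.mul (h : Ge w j f) (h' : Ge w k g) : Ge w (j + k) (f * g) := fun d hd => by
  classical
  rw [coeff_mul] at hd
  obtain ⟨x, hx, h1⟩ := Finset.exists_ne_zero_of_sum_ne_zero hd
  rw [← Finset.HasAntidiagonal.mem_antidiagonal.mp hx, map_add]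
  exact add_le_add (h _ (left_ne_zero_of_mul h1)) (h' _ (right_ne_zero_of_mul h1))

lemma Ge.cp_lt (h : Ge w j f) (e : k < j) : cp w k f = 0 := by
  classical
  ext d
  rw [coeff_weightedHomogeneousComponent]
  split_ifs with h1
  · by_contra h2
    have := h d h2
    omega
  · rfl

lemma Ge.succ (h : Ge w j f) (h0 : cp w j f = 0) : Ge w (j + 1) f := fun d hd => by
  classical
  have h1 := coeff_weightedHomogeneousComponent (w := w) j f d
  have h2 := h d hd
  rw [h0, coeff_zero] at h1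
  by_contra h3
  rw [if_pos (by omega)] at h1
  exact hd h1.symm

lemma cp_neg (w : σ → ℤ) (j : ℤ) (f : Pol σ) : cp (fun i => -w i) (-j) f = cp w j f := by
  classical
  ext d
  have := weight_comp (-AddMonoidHom.id ℤ) w d
  simp only [AddMonoidHom.neg_apply, AddMonoidHom.id_apply] at this
  simp only [coeff_weightedHomogeneousComponent, this, neg_inj]

lemma Ge.cp_mul (h : Ge w j f) (h' : Ge w k g) {l : ℤ} (e : l = j + k) :
    cp w l (f * g) = cp w j f * cp w k g := by
  have key : ∀ d, weight (fun i => -w i) d = -weight w d := fun d =>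
    weight_comp (-AddMonoidHom.id ℤ) w d
  rw [e, ← cp_neg, ← cp_neg w j, ← cp_neg w k, neg_add]
  exact top_mul (fun d hd => by rw [key]; exact neg_le_neg (h d hd))
    (fun d hd => by rw [key]; exact neg_le_neg (h' d hd))

lemma exists_bot (w : σ → ℤ) (hf : f ≠ 0) : ∃ a, Ge w a f ∧ cp w a f ≠ 0 := by
  obtain ⟨a, h1, h2⟩ := exists_top (fun i => -w i) hf
  refine ⟨-a, fun d hd => ?_, by rwa [← cp_neg, neg_neg]⟩
  have h3 := h1 d hd
  have h4 : weight (fun i => -w i) d = -weight w d := weight_comp (-AddMonoidHom.id ℤ) w d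
  omega

lemma Ge.of_mul (h : Ge w j f) (h0 : cp w j f ≠ 0) (h' : Ge w (j + k) (f * g)) : Ge w k g := by
  by_cases hg : g = 0
  · rw [hg]; exact ge_zero _ _
  obtain ⟨a, h1, h2⟩ := exists_bot w hg
  refine h1.mono (not_lt.1 fun h3 => mul_ne_zero h0 h2 ?_)
  rw [← h.cp_mul h1 rfl]
  exact h'.cp_lt (by omega)

lemma ge_of_nonneg (hw : ∀ i, 0 ≤ w i) (f : Pol σ) : Ge w 0 f := fun d _ =>
  lam_weight_nonneg (lam := AddMonoidHom.id ℤ) hw d

lemma cp_zero (hw : ∀ i, 0 ≤ w i) (f : Pol σ) : cp w 0 f = kl {i | w i = 0} f := by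
  classical
  ext d
  rw [coeff_weightedHomogeneousComponent, coeff_kl]
  exact if_congr (lam_weight_eq_zero_iff (lam := AddMonoidHom.id ℤ) hw d) rfl rfl

lemma Ge.dr [Fintype σ] {δ : Dr σ} (hδ : ∀ i, IsWeightedHomogeneous w (δ (X i)) (w i + 1))
    (h : Ge w j f) : Ge w (j + 1) (δ f) := fun d hd => by
  classical
  by_contra h1
  have h2 := comp_dr hδ (weight w d - 1) f
  rw [show weightedHomogeneousComponent w (weight w d - 1) f = 0 from h.cp_lt (by omega), map_zero,
    sub_add_cancel] at h2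
  have h3 := coeff_weightedHomogeneousComponent (w := w) (weight w d) (δ f) d
  rw [h2, if_pos rfl] at h3
  exact hd h3.symm

lemma Ge.eq_zero (hw : ∀ i, w i < 0) (h : Ge w j f) (hj : 0 < j) : f = 0 := by
  by_contra h0
  obtain ⟨d, hd⟩ := exists_coeff_ne_zero h0
  have h1 := h d hd
  have h2 := lam_weight_nonneg (w := w) (lam := -AddMonoidHom.id ℤ)
    (fun i => by simpa using (hw i).le) d
  simp only [AddMonoidHom.neg_apply, AddMonoidHom.id_apply] at h2
  omega

lemma Ge.isUnit (hw : ∀ i, w i < 0) (h : Ge w 0 f) (h0 : f ≠ 0) : IsUnit f := by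
  have e : f = C (coeff 0 f) := by
    rw [← monomial_zero']
    apply eq_monomial_of_support_subset_singleton
    intro d hd
    have h1 := h d (MvPolynomial.mem_support_iff.mp hd)
    have h3 : ∀ i, 0 ≤ (-AddMonoidHom.id ℤ) (w i) := fun i => by simpa using (hw i).le
    have h2 := lam_weight_nonneg h3 d
    have h4 := (lam_weight_eq_zero_iff h3 d).1
    simp only [AddMonoidHom.neg_apply, AddMonoidHom.id_apply] at h2 h4
    ext i
    by_contra h5
    have := h4 (by omega) i h5
    have := hw i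
    omega
  rw [e] at h0 ⊢
  exact isUnit_C fun h => h0 (by rw [h, C_0])

lemma weight_sub (w : σ → ℤ) (W : ℤ) (d : σ →₀ ℕ) :
    weight (fun i => w i - W) d = weight w d - W * weight (fun _ => (1 : ℤ)) d := by
  simp only [weight_apply, Finsupp.sum, nsmul_eq_mul, Finset.mul_sum,
    ← Finset.sum_sub_distrib]
  exact Finset.sum_congr rfl fun i _ => by ring

lemma Ge.shift {D : ℤ} (h : Ge w j f) (hf : Hom f D) (W : ℤ) :
    Ge (fun i => w i - W) (j - W * D) f := fun d hd => by
  rw [weight_sub, hf hd]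
  exact sub_le_sub_right (h d hd) _

lemma cp_shift {D : ℤ} (hf : Hom f D) (w : σ → ℤ) (j W : ℤ) :
    cp (fun i => w i - W) (j - W * D) f = cp w j f := by
  classical
  ext d
  rw [coeff_weightedHomogeneousComponent, coeff_weightedHomogeneousComponent]
  by_cases h : coeff d f = 0
  · simp [h]
  · simp only [weight_sub, hf h, sub_left_inj]

end ge

/-- A splitting of the initial bundle lifts. -/
theorem lift_sp [Fintype σ] [Fintype ι] {T T₀ : VB σ ι} {u : σ → ℤ} (hu : ∀ i, u i < 0)
    {β γ : ι → ℤ} {e g : ℤ} (hge : ∀ i j, Ge u (β i + β j - e) (T.ω i j))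
    (h0 : ∀ i j, T₀.ω i j = cp u (β i + β j - e) (T.ω i j)) (hG : Gr (fun _ => 1) γ g T₀.ω)
    (h3 : 2 < Fintype.card σ) (hS : Sp T₀.ω) : Sp T.ω := by
  classical
  obtain ⟨x₁, x₂, x₃, h12, h13, h23⟩ := Fintype.two_lt_card_iff.mp h3
  have : Nontrivial σ := ⟨⟨x₁, x₂, h12⟩⟩
  have hL : Gr u β e T₀.ω := fun i j => h0 i j ▸ cp_hom _ _ _
  obtain ⟨m₁, m₂, c₁, c₂, hm₁, hm₂, hm⟩ : (T₀.toPlu (hG.prod hL)).Split := by
    obtain ⟨n₁, n₂, h⟩ := hS
    refine Plu.split_of_const h12 (AddMonoidHom.fst ℤ ℤ) (fun _ => rfl) (φ := n₁) (ψ := n₂)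
      (B := 1) (fun i j k => ?_) (fun i j k => ?_) (fun i j => ?_) (by simp)
    · change T₀.ω i j * _ - T₀.ω i k * _ + T₀.ω j k * _ = 0
      rw [h, h, h]; ring
    · change T₀.ω i j * _ - T₀.ω i k * _ + T₀.ω j k * _ = 0
      rw [h, h, h]; ring
    · change T₀.ω i j * _ = _
      rw [h, mul_one]
  replace hm : ∀ i j, T₀.ω i j = m₁ i * m₂ j - m₁ j * m₂ i := hm
  obtain ⟨N, hN⟩ := exists_pow_mem (A := Set.univ)
    (I := Ideal.span (Set.range fun ij : ι × ι => T₀.ω ij.1 ij.2)) fun p hp hI s _ => by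
      by_contra hcon
      obtain ⟨i, j, hij⟩ := T₀.LF p hp s hcon
      exact hij (hI (Ideal.subset_span ⟨(i, j), rfl⟩))
  have tri : ∀ {n : ι → Pol σ} {c : ℤ}, (∀ j, Ge u (β j + c) (n j)) → ∀ i j l,
      Ge u (β i + β j + β l - e + c) (T.ω i j * n l - T.ω i l * n j + T.ω j l * n i) ∧
      cp u (β i + β j + β l - e + c) (T.ω i j * n l - T.ω i l * n j + T.ω j l * n i) =
        T₀.ω i j * cp u (β l + c) (n l) - T₀.ω i l * cp u (β j + c) (n j) +
          T₀.ω j l * cp u (β i + c) (n i) := fun hn i j l =>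
    ⟨((((hge i j).mul (hn l)).mono (by omega)).sub (((hge i l).mul (hn j)).mono (by omega))).add
      (((hge j l).mul (hn i)).mono (by omega)), by
      rw [map_add, map_sub, (hge i j).cp_mul (hn l) (by ring), (hge i l).cp_mul (hn j) (by ring),
        (hge j l).cp_mul (hn i) (by ring), h0, h0, h0]⟩
  have lift : ∀ (n₀ : ι → Pol σ) (c : ℤ), Wd T₀.ω n₀ →
      (∀ j, IsWeightedHomogeneous u (n₀ j) (β j + c)) →
      ∃ n : T.N, ∀ j, Ge u (β j + c) (n.1 j) ∧ cp u (β j + c) (n.1 j) = n₀ j := by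
    intro n₀ c hn₀ hc
    have approx : ∀ k : ℕ, ∃ n : ι → Pol σ,
        (∀ j, Ge u (β j + c) (n j) ∧ cp u (β j + c) (n j) = n₀ j) ∧ ∀ i j l,
        Ge u (β i + β j + β l - e + (c + k) + 1)
          (T.ω i j * n l - T.ω i l * n j + T.ω j l * n i) := by
      intro k
      induction k with
      | zero =>
        refine ⟨n₀, fun j => ⟨ge_of_hom (hc j), (hc j).weightedHomogeneousComponent_same⟩,
          fun i j l => ?_⟩
        obtain ⟨a1, a2⟩ := tri (fun j => ge_of_hom (hc j)) i j l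
        simp only [(hc _).weightedHomogeneousComponent_same, hn₀ i j l] at a2
        simpa using a1.succ a2
      | succ k ih =>
        obtain ⟨n, hn, hR⟩ := ih
        set R : ι → ι → ι → Pol σ := fun i j l =>
          T.ω i j * n l - T.ω i l * n j + T.ω j l * n i with hRd
        set R₀ : ι → ι → ι → Pol σ := fun i j l =>
          cp u (β i + β j + β l - e + (c + k) + 1) (R i j l) with hR₀
        have hRR : ∀ i j a b l, T₀.ω a b * R₀ i j l - T₀.ω a l * R₀ i j b + T₀.ω b l * R₀ i j a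
            = T₀.ω i j * R₀ a b l := by
          intro i j a b l
          have e1 : T.ω a b * R i j l - T.ω a l * R i j b + T.ω b l * R i j a =
              T.ω i j * R a b l := by
            simp only [hRd]
            linear_combination - n j * T.pl i a b l + n i * T.pl j a b l
          have e2 := congrArg (cp u (β a + β b + β i + β j + β l - e - e + (c + k) + 1)) e1
          rwa [map_add, map_sub, (hge a b).cp_mul (hR i j l) (by ring),
            (hge a l).cp_mul (hR i j b) (by ring), (hge b l).cp_mul (hR i j a) (by ring),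
            (hge i j).cp_mul (hR a b l) (by ring), ← h0, ← h0, ← h0, ← h0] at e2
        have hψ : ∀ s, ∃ ψ : ι → Pol σ, ∀ a b l,
            T₀.ω a b * ψ l - T₀.ω a l * ψ b + T₀.ω b l * ψ a = X s ^ N * R₀ a b l := by
          intro s
          obtain ⟨v, hv⟩ := (Submodule.mem_span_range_iff_exists_fun _).mp (hN s trivial)
          refine ⟨fun l => ∑ ij, v ij * R₀ ij.1 ij.2 l, fun a b l => ?_⟩
          rw [← hv]
          simp only [Finset.mul_sum, Finset.sum_mul, ← Finset.sum_sub_distrib,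
            ← Finset.sum_add_distrib, smul_eq_mul]
          exact Finset.sum_congr rfl fun ij _ => by linear_combination v ij * hRR ij.1 ij.2 a b l
        obtain ⟨ψ₁, f₁⟩ := hψ x₁
        obtain ⟨ψ₂, f₂⟩ := hψ x₂
        obtain ⟨ψ₃, f₃⟩ := hψ x₃
        obtain ⟨m, hm'⟩ := koszul T₀.prim hm h12 h13 h23 f₁ f₂ f₃
        have hh : ∀ j, IsWeightedHomogeneous u (cp u (β j + (c + k + 1)) (m j))
            (β j + (c + k + 1)) := fun j => cp_hom _ _ _
        refine ⟨fun j => n j - cp u (β j + (c + k + 1)) (m j), fun j =>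
          ⟨(hn j).1.sub ((ge_of_hom (hh j)).mono (by omega)), by
            rw [map_sub, (hn j).2, (ge_of_hom (hh j)).cp_lt (by omega), sub_zero]⟩,
          fun i j l => ?_⟩
        obtain ⟨a1, a2⟩ := tri (fun j => ge_of_hom (hh j)) i j l
        simp only [(hh _).weightedHomogeneousComponent_same] at a2
        have a3 := congrArg (cp u (β i + β j + β l - e + (c + k + 1))) (hm' i j l)
        rw [map_add, map_sub, show β i + β j + β l - e + (c + k + 1) =
          β i + β j - e + (β l + (c + k + 1)) by ring, comp_mul (hL i j),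
          show β i + β j - e + (β l + (c + k + 1)) = β i + β l - e + (β j + (c + k + 1)) by ring,
          comp_mul (hL i l), show β i + β l - e + (β j + (c + k + 1)) =
            β j + β l - e + (β i + (c + k + 1)) by ring, comp_mul (hL j l),
          show β j + β l - e + (β i + (c + k + 1)) = β i + β j + β l - e + (c + k) + 1 by ring,
          (cp_hom _ _ _).weightedHomogeneousComponent_same] at a3
        rw [show β i + β j + β l - e + (c + k + 1) = β i + β j + β l - e + (c + k) + 1 by ring]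
          at a1 a2
        have a4 := ((hR i j l).sub a1).succ (by rw [map_sub, a2, a3, sub_self])
        have a6 : T.ω i j * (n l - cp u (β l + (c + k + 1)) (m l)) -
            T.ω i l * (n j - cp u (β j + (c + k + 1)) (m j)) +
            T.ω j l * (n i - cp u (β i + (c + k + 1)) (m i)) = R i j l -
            (T.ω i j * cp u (β l + (c + k + 1)) (m l) - T.ω i l * cp u (β j + (c + k + 1)) (m j) +
              T.ω j l * cp u (β i + (c + k + 1)) (m i)) := by
          simp only [hRd]; ring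
        rw [a6]
        exact a4.mono (by push_cast; omega)
    obtain ⟨n, hn, hR⟩ := approx (Finset.univ.sup fun t : ι × ι × ι =>
      (-(β t.1 + β t.2.1 + β t.2.2 - e + c)).toNat)
    refine ⟨⟨n, fun i j l => (hR i j l).eq_zero hu ?_⟩, hn⟩
    have hle := Finset.le_sup (f := fun t : ι × ι × ι =>
      (-(β t.1 + β t.2.1 + β t.2.2 - e + c)).toNat) (Finset.mem_univ (i, j, l))
    generalize (Finset.univ.sup fun t : ι × ι × ι =>
      (-(β t.1 + β t.2.1 + β t.2.2 - e + c)).toNat) = K at hle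
    simp only at hle
    omega
  obtain ⟨n₁, hn₁⟩ := lift m₁ c₁.2 (fun i j k => by rw [hm, hm, hm]; ring)
    fun j => hom_map (AddMonoidHom.snd ℤ ℤ) (hm₁ j)
  obtain ⟨n₂, hn₂⟩ := lift m₂ c₂.2 (fun i j k => by rw [hm, hm, hm]; ring)
    fun j => hom_map (AddMonoidHom.snd ℤ ℤ) (hm₂ j)
  obtain ⟨i, j, hij⟩ := T₀.exists_ne
  have b1 : Ge u (β i + β j + c₁.2 + c₂.2) (T.ω i j * T.B n₁ n₂) := by
    rw [B_spec]
    exact (((hn₁ i).1.mul (hn₂ j).1).mono (by omega)).sub
      (((hn₁ j).1.mul (hn₂ i).1).mono (by omega))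
  have b2 : cp u (β i + β j + c₁.2 + c₂.2) (T.ω i j * T.B n₁ n₂) = T₀.ω i j := by
    rw [B_spec, map_sub, (hn₁ i).1.cp_mul (hn₂ j).1 (by ring), (hn₁ j).1.cp_mul (hn₂ i).1 (by ring),
      (hn₁ i).2, (hn₁ j).2, (hn₂ i).2, (hn₂ j).2, hm]
  have b3 : β i + β j + c₁.2 + c₂.2 = β i + β j - e + 0 := by
    obtain ⟨d, hd⟩ := exists_coeff_ne_zero hij
    rw [add_zero, ← hL i j hd]
    exact (cp_hom u _ _ (b2 ▸ hd)).symm
  rw [b3] at b1
  refine sp_of_unit (φ := n₁) (ψ := n₂)
    (((hge i j).of_mul (h0 i j ▸ hij) b1).isUnit hu fun h => hij ?_)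
  rw [← b2, h, mul_zero, map_zero]

end Pool.Agent.P.MP_b01859_ag
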