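import Pool.Agent.P.MP_b01859_ag.U.Cs

/-!
A rank two bundle with a nonzero nilpotent symmetry splits.
-/

namespace Pool.Agent.P.MP_b01859_ag

open MvPolynomial VB

variable {σ ι : Type} [Fintype σ] [DecidableEq σ]

omit [Fintype σ] in
lemma wt_of_eval {w : σ → ℤ} {β : ι → ℤ} {e : ℤ} {ω : ι → ι → Pol σ} (hL : Gr w β e ω) {s : σ}
    (hs : w s = 0) {i j : ι} (h : eval (Pi.single s 1) (ω i j) ≠ 0) : β i + β j = e := by
  obtain ⟨r, hr⟩ := exists_coeff_of_eval_single h
  have := hL i j hr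
  rw [Finsupp.weight_single, hs, smul_zero] at this
  omega

variable [Fintype ι] [DecidableEq ι] {T : VB σ ι} {γ : ι → ℤ} {g : ℤ} {f : Matrix σ σ ℂ}
  {a : Matrix ι ι ℂ}

theorem ga_core (hG : Gr (fun _ => 1) γ g T.ω) (h : NS T γ f a) {w : σ → ℤ} (hw : ∀ i, 0 ≤ w i)
    (hf : ∀ i j, f i j ≠ 0 → w j = w i + 1)
    (hgen : ∀ I : Ideal (Pol σ), (∀ p ∈ I, der f p ∈ I) → (∀ s, w s = 0 → X s ∈ I) → ∀ s, X s ∈ I)
    {s t y z : σ} (hst : s ≠ t) (hs : w s = 0) (h2 : ∀ i, w i = 0 → i = s ∨ i = t)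
    (hy : f.mulVec (f.mulVec (Pi.single y 1)) = Pi.single s 1) (hy' : f.mulVec (Pi.single s 1) = 0)
    (hsy : s ≠ y) (hsz : s ≠ z) (hyz : y ≠ z) (ey : 2 ∣ w y) (ez : 2 ∣ w z) : Sp T.ω := by
  have : Nontrivial σ := ⟨⟨s, t, hst⟩⟩
  have hv : (Pi.single s 1 : σ → ℂ) ≠ 0 := fun h => by simpa using congrFun h s
  refine fil_split hG h hw hf hgen (Fintype.two_lt_card_iff.mpr ⟨s, y, z, hsy, hsz, hyz⟩) hst hs h2
    (fun κ _ _ T₀ γ' β' g' b a1 a2 a3 a4 a5 => by_contra fun hns => ?_)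
    fun κ _ _ T₀ γ' β' g' b a1 a2 _ _ _ => ?_
  · obtain ⟨i, hi⟩ := chain a1 a2 one_pos hf a3 a4 a5 (HV.single w y) (hy ▸ hv) (hy ▸ hy') hns
    rw [map_sum, hy] at hi
    obtain ⟨k, -, hk⟩ := Finset.exists_ne_zero_of_sum_ne_zero hi
    rw [smul_eval] at hk
    have e1 := wt_of_eval a2 hs (right_ne_zero_of_mul hk)
    have e2 := a3 i k (left_ne_zero_of_mul hk)
    omega
  · obtain ⟨i, j, hij⟩ := T₀.LF_eval hv
    have e1 := wt_of_eval a2 hs hij
    have hξ : LinearIndependent ℂ fun a : Fin 3 => (Pi.single (![s, y, z] a) 1 : σ → ℂ) := by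
      simpa [Function.comp_def] using (Pi.basisFun ℂ σ).linearIndependent.comp ![s, y, z] (by
        intro a b hab
        fin_cases a <;> fin_cases b <;> simp_all)
    refine mu a1 (a2.map (Int.castAddHom (ZMod 2))) hξ (fun a k hk => ?_) hij fun e2 => ?_
    · rw [HV.single w _ k hk, Int.coe_castAddHom, ZMod.intCast_zmod_eq_zero_iff_dvd]
      fin_cases a
      · simp [hs]
      · exact ey
      · exact ez
    · rw [Int.coe_castAddHom, ZMod.intCast_eq_intCast_iff_dvd_sub] at e2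
      push_cast at e2
      omega

omit [DecidableEq σ] in
lemma NS.map {τ : Type} [Fintype τ] (h : NS T γ f a) {ξ : τ → σ → ℂ} (hξ : LinearIndependent ℂ ξ)
    {f' : Matrix τ τ ℂ} (e : ∀ c, f.mulVec (ξ c) = ∑ b, f' b c • ξ b) : NS (T.map hξ) γ f' a :=
  ⟨h.ha, h.hγ, h.hS.push (fun _ _ => rfl) (sub_der e (der_X _))⟩

omit [DecidableEq σ] in
theorem ga5 (hG : Gr (fun _ => 1) γ g T.ω) (h : NS T γ f a) {x : σ → ℂ}
    (h4 : f.mulVecLin (f.mulVecLin (f.mulVecLin (f.mulVecLin x))) ≠ 0)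
    (h5 : f.mulVecLin (f.mulVecLin (f.mulVecLin (f.mulVecLin (f.mulVecLin x)))) = 0) : Sp T.ω := by
  have hF : ∀ v, f.mulVec v = f.mulVecLin v := fun _ => rfl
  generalize f.mulVecLin = F at h4 h5 hF
  have hξ : LinearIndependent ℂ ![F (F (F (F x))), F (F (F x)), F (F x), F x, x] := by
    rw [Fintype.linearIndependent_iff]
    intro u hu
    simp only [Fin.sum_univ_five, Matrix.cons_val_zero, Matrix.cons_val_one, Matrix.cons_val] at hu
    have e1 := congrArg (fun v => F (F v)) hu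
    simp only [map_add, map_smul, h5, map_zero, smul_zero, zero_add] at e1
    have e2 := Fintype.linearIndependent_iff.mp (indep3 F (y := F (F x)) h4 h5) ![u 2, u 3, u 4]
      (by simpa [Fin.sum_univ_three] using e1)
    have u2 : u 2 = 0 := e2 0
    have u3 : u 3 = 0 := e2 1
    have u4 : u 4 = 0 := e2 2
    have e3 := Fintype.linearIndependent_iff.mp (indep3 F (y := F (F x)) h4 h5) ![u 0, u 1, 0]
      (by simpa [Fin.sum_univ_three, u2, u3, u4] using hu)
    intro i
    fin_cases i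
    exacts [e3 0, e3 1, u2, u3, u4]
  refine horrocks hG hξ (by simp) (ga_core (map_gr hξ (fun _ _ _ => rfl) hG)
    (h.map hξ (f' := !![0, 1, 0, 0, 0; 0, 0, 1, 0, 0; 0, 0, 0, 1, 0; 0, 0, 0, 0, 1; 0, 0, 0, 0, 0])
      fun c => by fin_cases c <;> simp [hF, h5, Fin.sum_univ_five])
    (w := ![0, 1, 2, 3, 4]) (fun i => by fin_cases i <;> simp)
    (fun i j => by fin_cases i <;> fin_cases j <;> simp) (fun I hI h0 => ?_)
    (s := 0) (t := 1) (y := 2) (z := 4) (by simp) rfl (fun i => by fin_cases i <;> simp)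
    (by ext i; fin_cases i <;> simp [Matrix.vecHead, Matrix.vecTail])
    (by ext i; fin_cases i <;> simp) (by simp) (by simp) (by simp)
    (by simp) (by simp))
  have a0 := h0 0 rfl
  have a1 : X 1 ∈ I := by simpa [der_X, Fin.sum_univ_five] using hI _ a0
  have a2 : X 2 ∈ I := by simpa [der_X, Fin.sum_univ_five] using hI _ a1
  have a3 : X 3 ∈ I := by simpa [der_X, Fin.sum_univ_five] using hI _ a2
  have a4 : X 4 ∈ I := by simpa [der_X, Fin.sum_univ_five] using hI _ a3
  intro s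
  fin_cases s
  exacts [a0, a1, a2, a3, a4]

omit [DecidableEq σ] in
theorem ga31 (hG : Gr (fun _ => 1) γ g T.ω) (h : NS T γ f a) {x z : σ → ℂ}
    (h2 : f.mulVecLin (f.mulVecLin x) ≠ 0) (h3 : f.mulVecLin (f.mulVecLin (f.mulVecLin x)) = 0)
    (hz : f.mulVecLin z = 0) (hz' : ∀ c : ℂ, z ≠ c • f.mulVecLin (f.mulVecLin x)) : Sp T.ω := by
  have hF : ∀ v, f.mulVec v = f.mulVecLin v := fun _ => rfl
  generalize f.mulVecLin = F at h2 h3 hz hz' hF
  have hξ : LinearIndependent ℂ ![F (F x), F x, x, z] := by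
    rw [Fintype.linearIndependent_iff]
    intro u hu
    simp only [Fin.sum_univ_four, Matrix.cons_val_zero, Matrix.cons_val_one, Matrix.cons_val] at hu
    have e1 := congrArg F hu
    simp only [map_add, map_smul, h3, hz, map_zero, smul_zero, zero_add, add_zero] at e1
    have e2 := Fintype.linearIndependent_iff.mp (indep3 F h2 h3) ![u 1, u 2, 0]
      (by simpa [Fin.sum_univ_three] using e1)
    have u1 : u 1 = 0 := e2 0
    have u2 : u 2 = 0 := e2 1
    simp only [u1, u2, zero_smul, add_zero] at hu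
    have u3 : u 3 = 0 := by
      by_contra h
      refine hz' (-(u 3)⁻¹ * u 0) ?_
      have := congrArg ((u 3)⁻¹ • ·) hu
      simp only [smul_add, smul_smul, inv_mul_cancel₀ h, one_smul, smul_zero] at this
      linear_combination (norm := module) this
    rw [u3, zero_smul, add_zero] at hu
    have u0 := (smul_eq_zero.mp hu).resolve_right h2
    intro i
    fin_cases i <;> assumption
  refine horrocks hG hξ (by simp) (ga_core (map_gr hξ (fun _ _ _ => rfl) hG)
    (h.map hξ (f' := !![0, 1, 0, 0; 0, 0, 1, 0; 0, 0, 0, 0; 0, 0, 0, 0])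
      fun c => by fin_cases c <;> simp [hF, h3, hz, Fin.sum_univ_four])
    (w := ![0, 1, 2, 0]) (fun i => by fin_cases i <;> simp)
    (fun i j => by fin_cases i <;> fin_cases j <;> simp) (fun I hI h0 => ?_)
    (s := 0) (t := 3) (y := 2) (z := 3) (by simp) rfl (fun i => by fin_cases i <;> simp)
    (by ext i; fin_cases i <;> simp [Matrix.vecHead, Matrix.vecTail])
    (by ext i; fin_cases i <;> simp) (by simp) (by simp) (by simp)
    (by simp) (by simp))
  have a0 := h0 0 rfl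
  have a1 : X 1 ∈ I := by simpa [der_X, Fin.sum_univ_four] using hI _ a0
  have a2 : X 2 ∈ I := by simpa [der_X, Fin.sum_univ_four] using hI _ a1
  intro s
  fin_cases s
  exacts [a0, a1, a2, h0 3 rfl]

/-- A nonzero nilpotent symmetry forces splitting. -/
theorem ga (hG : Gr (fun _ => 1) γ g T.ω) (h5 : 5 ≤ Fintype.card σ) (hS : St T γ f)
    (hn : IsNilpotent f) (hf0 : f ≠ 0) : Sp T.ω := by
  have : Nontrivial σ := Fintype.one_lt_card_iff_nontrivial.mp (by omega)
  obtain ⟨T', γ', n, hG', h, h1, -⟩ := nl hG hS hn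
  refine h1 ?_
  have hLN := LN_mulVecLin hn
  set F := f.mulVecLin with hF
  have htop : ∀ G : Module.End ℂ (σ → ℂ), (∀ x, G x = 0) →
      5 ≤ Module.finrank ℂ (LinearMap.ker G) := fun G hG => by
    rwa [(eq_top_iff.mpr fun x _ => hG x : LinearMap.ker G = ⊤), finrank_top,
      Module.finrank_fintype_fun_eq_card]
  by_cases h4 : ∃ x, F (F (F (F x))) ≠ 0
  · obtain ⟨x, hx⟩ := h4
    obtain ⟨k, hk, hk'⟩ := hLN.exists_last (fun x => F (F (F (F x))) ≠ 0) (by simp) hx
    exact ga5 hG' h hk (not_not.mp hk')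
  push Not at h4
  by_cases h2 : ∃ x, F (F x) ≠ 0
  swap
  · push Not at h2
    exact toolG hG' h hn hf0 (htop _ h2)
  obtain ⟨x, hx⟩ := h2
  obtain ⟨k, hk, hk'⟩ := hLN.exists_last (fun x => F (F x) ≠ 0) (by simp) hx
  rw [not_not] at hk'
  have step : ∀ G : Module.End ℂ (σ → ℂ), Module.finrank ℂ (LinearMap.ker (F * G)) ≤
      Module.finrank ℂ (LinearMap.ker G) + Module.finrank ℂ (LinearMap.ker F) := fun G => by
    rw [finrank_ker_sq]
    exact Nat.add_le_add_left (Submodule.finrank_mono inf_le_right) _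
  have a1 := htop (F * (F * (F * F))) h4
  have a2 := step (F * (F * F))
  have a3 := step (F * F)
  have a4 := step F
  obtain ⟨z, hz, hz'⟩ : ∃ z, F z = 0 ∧ ∀ c : ℂ, z ≠ c • F (F ((F ^ k) x)) := by
    by_contra hcon
    push Not at hcon
    have a5 : LinearMap.ker F ≤ Submodule.span ℂ {F (F ((F ^ k) x))} := fun z hz => by
      obtain ⟨c, hc⟩ := hcon z hz
      exact Submodule.mem_span_singleton.2 ⟨c, hc.symm⟩
    have a6 := Submodule.finrank_mono a5
    rw [finrank_span_singleton hk] at a6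
    omega
  exact ga31 hG' h hk hk' hz hz'

end Pool.Agent.P.MP_b01859_ag
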