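import Pool.Agent.P.MP_b01859_ag.U.Nil

/-!
The infinitesimal stabilizer of a rank two bundle that does not split.
-/

namespace Pool.Agent.P.MP_b01859_ag

open MvPolynomial VB

section vb

variable {σ ι : Type} [Fintype σ] [Fintype ι] [DecidableEq σ] [DecidableEq ι] [Nontrivial σ]
  {T : VB σ ι} {γ : ι → ℤ} {g : ℤ}

theorem key_torus5 (hG : Gr (fun _ => 1) γ g T.ω) (h5 : 5 ≤ Fintype.card σ) {α : σ → ℂ}
    {β : ι → ℂ} (hL : Gr α β 0 T.ω) {i₀ j₀ : σ} (hij : α i₀ ≠ α j₀) {A : Matrix σ σ ℂ}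
    (hA : St T γ A) (hns : ¬ Sp T.ω) : ∃ s t : ℂ, A = s • Matrix.diagonal α + t • 1 := by
  obtain ⟨a, ha, hS⟩ := hA
  by_cases h : ∃ i j, A i j ≠ 0 ∧ α j ≠ α i
  · obtain ⟨i, j, h1, h2⟩ := h
    obtain ⟨p, q, c, hc, hL', -, hp, hq⟩ := exists_level hL (sub_ne_zero.mpr h2)
    refine absurd (ga hG h5 ⟨_, fun k l h => ha k l (cmp_ne h).2, cs hL hS (α j - α i)⟩
      (nil_of_raise hc fun k l h => hp k l (cmp_ne h).1) fun h0 => h1 ?_) hns
    have := congrFun (congrFun h0 i) j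
    rwa [cmp, if_pos (by ring)] at this
  push Not at h
  have h1 := cs hL hS 0
  have h2 : cmp α 0 A = A := Matrix.ext fun i j => by
    by_cases h3 : A i j = 0
    · simp [cmp, h3]
    · simp [cmp, h i j h3]
  rw [h2] at h1
  obtain ⟨T', w', γ', P, Q, α₂, β₂, N, a1, a2, hQP, hPQ, hQ, he, hN, hN', a3, a4, -⟩ :=
    diagz (hG.prod hL) (fun i j h3 => by rw [h i j h3]) (fun i j h3 => by
      rw [ha i j (cmp_ne h3).2, (cmp_ne h3).1, add_zero]) h1
  have hrow : ∀ i, ∃ k, Q i k ≠ 0 := fun i => by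
    have := congrFun (congrFun hQP i) i
    rw [Matrix.mul_apply, Matrix.one_apply_eq] at this
    obtain ⟨k, -, hk⟩ := Finset.exists_ne_zero_of_sum_ne_zero (this.trans_ne one_ne_zero)
    exact ⟨k, left_ne_zero_of_mul hk⟩
  have hcol : ∀ k, (w' k).1 = 1 := fun k => by
    have := congrFun (congrFun hPQ k) k
    rw [Matrix.mul_apply, Matrix.one_apply_eq] at this
    obtain ⟨i, -, hi⟩ := Finset.exists_ne_zero_of_sum_ne_zero (this.trans_ne one_ne_zero)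
    rw [← hQ i k (right_ne_zero_of_mul hi)]
  have b1 : Gr (fun _ => 1) (fun j => (γ' j).1) g T'.ω := by
    simpa [hcol] using a1.map (AddMonoidHom.fst ℤ ℂ)
  have b2 : Gr (fun i => (w' i).2) (fun j => (γ' j).2) 0 T'.ω := a1.map (AddMonoidHom.snd ℤ ℂ)
  obtain ⟨i, hi⟩ := hrow i₀
  obtain ⟨j, hj⟩ := hrow j₀
  have b3 : (w' i).2 ≠ (w' j).2 := by rwa [← hQ i₀ i hi, ← hQ j₀ j hj]
  have hN0 : N = 0 := by_contra fun hN0 => hns (a4 (ga b1 h5 (a3 Prod.fst) hN hN0))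
  by_contra hcon
  refine hns (a4 (t2 b1 h5 b2 a2 b3 ?_))
  rintro ⟨s, t, hst⟩
  refine hcon ⟨s, t, ?_⟩
  have c1 : Q * Matrix.diagonal (fun i => (w' i).2) = Matrix.diagonal α * Q :=
    Matrix.ext fun k l => by
      rw [Matrix.mul_diagonal, Matrix.diagonal_mul]
      by_cases h3 : Q k l = 0
      · simp [h3]
      · rw [← hQ k l h3, mul_comm]
  have c2 : Matrix.diagonal α₂ = s • Matrix.diagonal (fun i => (w' i).2) + t • 1 :=
    Matrix.ext fun k l => by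
      by_cases h3 : k = l <;> simp [h3, hst]
  rw [hN0, add_zero, c2] at he
  calc A = Q * (P * A * Q) * P := by
        rw [← mul_assoc, ← mul_assoc, hQP, one_mul, mul_assoc, hQP, mul_one]
    _ = _ := by
        rw [he, mul_add, mul_smul_comm, c1, add_mul, smul_mul_assoc, mul_assoc, hQP, mul_one,
          mul_smul_comm, mul_one, smul_mul_assoc, hQP]

theorem stab_vb (hG : Gr (fun _ => 1) γ g T.ω) (h5 : 5 ≤ Fintype.card σ) (hns : ¬ Sp T.ω) :
    ∃ (P Q : Matrix σ σ ℂ) (z : σ → ℤ), Q * P = 1 ∧ ∀ A, St T γ A →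
      ∃ s t : ℂ, A = s • (Q * Matrix.diagonal (fun i => (z i : ℂ)) * P) + t • 1 := by
  by_cases H : ∀ A, St T γ A → ∃ t : ℂ, A = t • 1
  · exact ⟨1, 1, 0, one_mul _, fun A hA => (H A hA).elim fun t ht => ⟨0, t, by simp [ht]⟩⟩
  push Not at H
  obtain ⟨A₁, ⟨a, ha, hS⟩, H⟩ := H
  obtain ⟨T', w', γ', P, Q, α, β, N, a1, a2, hQP, hPQ, hQ, he, hN, -, a3, a4, a5⟩ :=
    diagz hG (fun _ _ _ => rfl) ha hS
  have hcol : w' = fun _ => 1 := funext fun k => by
    have := congrFun (congrFun hPQ k) k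
    rw [Matrix.mul_apply, Matrix.one_apply_eq] at this
    obtain ⟨i, -, hi⟩ := Finset.exists_ne_zero_of_sum_ne_zero (this.trans_ne one_ne_zero)
    rw [← hQ i k (right_ne_zero_of_mul hi)]
  subst hcol
  have hns' : ¬ Sp T'.ω := fun h => hns (a4 h)
  have hback : ∀ X : Matrix σ σ ℂ, X = Q * (P * X * Q) * P := fun X => by
    rw [← mul_assoc, ← mul_assoc, hQP, one_mul, mul_assoc, hQP, mul_one]
  have hN0 : N = 0 := by_contra fun hN0 => hns' (ga a1 h5 (a3 id) hN hN0)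
  obtain ⟨i, j, hij⟩ : ∃ i j, α i ≠ α j := by
    by_contra hcon
    push Not at hcon
    obtain ⟨i⟩ : Nonempty σ := inferInstance
    refine H (α i) ?_
    have : Matrix.diagonal α = α i • (1 : Matrix σ σ ℂ) := Matrix.ext fun k l => by
      by_cases h3 : k = l <;> simp [h3, hcon l i]
    rw [hback A₁, he, this, hN0, add_zero, mul_smul_comm, mul_one, smul_mul_assoc, hQP]
  obtain ⟨p, q, c, hc, hL, -, hp, -⟩ := exists_level a2 (sub_ne_zero.mpr hij)
  obtain ⟨s₀, t₀, h0⟩ : ∃ s t : ℂ, ∀ k, α k = s * p k + t := by_contra fun h => hns'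
    (t2 a1 h5 (α := fun k => (p k : ℂ)) (β := fun k => (q k : ℂ))
      (by simpa using hL.map (Int.castAddHom ℂ)) a2 (i := i) (j := j)
      (by have := hp j i (by ring); exact_mod_cast (by omega : p i ≠ p j)) h)
  refine ⟨P, Q, p, hQP, fun A hA => ?_⟩
  obtain ⟨s, t, e1⟩ := key_torus5 a1 h5 a2 hij (a5 id A hA) hns'
  have c2 : Matrix.diagonal α = s₀ • Matrix.diagonal (fun i => (p i : ℂ)) + t₀ • 1 :=
    Matrix.ext fun k l => by
      by_cases h3 : k = l <;> simp [h3, h0]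
  refine ⟨s * s₀, s * t₀ + t, ?_⟩
  rw [hback A, e1, c2]
  simp only [mul_add, add_mul, mul_smul_comm, smul_mul_assoc, mul_one, hQP]
  module

end vb

variable {σ : Type} {M : Type} [AddCommGroup M] [Module ℂ M] [Module (Pol σ) M]
  [IsScalarTower ℂ (Pol σ) M]

theorem stab_mod [Fintype σ] [DecidableEq σ] (hcard : 5 ≤ Fintype.card σ)
    [Module.Finite (Pol σ) M] (ℳ : ℤ → Submodule ℂ M) (hint : DirectSum.IsInternal ℳ)
    (hgr : ∀ i k m, m ∈ ℳ k → (X i : Pol σ) • m ∈ ℳ (k + 1))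
    (hfree : ∀ p : PrimeSpectrum (Pol σ), (∃ i, X i ∉ p.asIdeal) →
      Module.Free (Localization.AtPrime p.asIdeal) (LocalizedModule p.asIdeal.primeCompl M) ∧
      Module.finrank (Localization.AtPrime p.asIdeal)
        (LocalizedModule p.asIdeal.primeCompl M) = 2) :
    (∃ (a b : ℤ) (φ : M →ₗ[Pol σ] Pol σ × Pol σ),
      (∀ k m, m ∈ ℳ k → IsWeightedHomogeneous (fun _ => (1 : ℤ)) (φ m).1 (k + a) ∧
        IsWeightedHomogeneous (fun _ => (1 : ℤ)) (φ m).2 (k + b)) ∧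
      ∀ p : PrimeSpectrum (Pol σ), (∃ i, X i ∉ p.asIdeal) →
        Function.Bijective (LocalizedModule.map p.asIdeal.primeCompl φ)) ∨
    ∃ (P : GL σ ℂ) (z : σ → ℤ), ∀ (A : Matrix σ σ ℂ) (D : M →ₗ[ℂ] M),
      (∀ k m, m ∈ ℳ k → D m ∈ ℳ k) →
      (∀ i m, D ((X i : Pol σ) • m) = (∑ j, C (A i j) * X j : Pol σ) • m + (X i : Pol σ) • D m) →
      ∃ s t : ℂ, A = s • (P.val * Matrix.diagonal (fun i => (z i : ℂ)) * (P⁻¹).val) + t • 1 := by
  classical
  have hind := hint.submodule_iSupIndep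
  have : Nontrivial σ := Fintype.one_lt_card_iff_nontrivial.mp (by omega)
  obtain ⟨ι, _, m, γ, hsp, hm, hc⟩ := exists_gens' hind hint.submodule_iSup_eq_top hgr
  obtain ⟨T, hw, rfl, h1, h2, hT⟩ := module_plu (fun _ _ h => h (AddMonoidHom.id ℤ))
    (fun _ => (1 : ℤ)) (Classical.arbitrary σ) m hsp γ
    (hgr_of hind (w' := fun _ => (1 : ℤ)) hgr (AddMonoidHom.id ℤ) Function.injective_id
      (AddMonoidHom.id ℤ) (fun _ => rfl) hm (fun _ => rfl)) hfree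
  let V : VB σ ι := ⟨T.ω, T.skew, T.pl, T.LF⟩
  have hG : Gr (fun _ => 1) T.γ T.g₀ V.ω := fun i j => hw ▸ T.hom i j
  by_cases hns : Sp V.ω
  · left
    obtain ⟨n₁, n₂, α, β, h3⟩ := VB.split_of_sp hG hns
    obtain ⟨α, β, φ, hφ, hb⟩ := hT ⟨n₁, n₂, α, β, hw ▸ h3⟩
    refine ⟨α, β, φ, fun k x hx => ?_, hb⟩
    obtain ⟨f, hf, rfl⟩ := eq_sum_comp hind hgr hsp hm hx
    simp only [map_sum, map_smul, Prod.fst_sum, Prod.snd_sum, Prod.smul_fst, Prod.smul_snd,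
      smul_eq_mul]
    exact ⟨IsWeightedHomogeneous.sum _ _ _ fun j _ => hom_congr ((hf j).mul (hφ j).1) (by ring),
      IsWeightedHomogeneous.sum _ _ _ fun j _ => hom_congr ((hf j).mul (hφ j).2) (by ring)⟩
  obtain ⟨P, Q, z, hQP, h⟩ := stab_vb hG hcard hns
  refine Or.inr ⟨⟨Q, P, hQP, mul_eq_one_comm.1 hQP⟩, z, fun A D e e' => h A ?_⟩
  choose a ha ha' using fun j => hc j _ (e _ _ (hm j))
  exact st_of_mod hG h1 h2 (leibniz_mod (δ := der A) fun i m => by rw [der_X, e']) ha ha'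

end Pool.Agent.P.MP_b01859_ag
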